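import Pool.Agent.W251.EX.Defs
import Pool.Agent.W56.FP.A0Q

/-!
Project EX (helper251), part SLOWQ: lower bound for the weights in a residue class.
-/

set_option autoImplicit false

namespace Pool.Agent.W125.EX

open Finset
open Pool.Agent.W78.EC (wn)
open Pool.Agent.W251.EX

/-- the root attached to a primitive pair, in a residue class -/
lemma root (q a X Y : ℕ) (hq : 1 ≤ q) (hX : 1 ≤ X) (hY : 1 ≤ Y) (hXY : Nat.Coprime X Y)
    (hd : Nat.Coprime (X ^ 2 + Y ^ 2) q) : ∃ n : ℕ, 1 ≤ n ∧ n ≤ (X ^ 2 + Y ^ 2) * q ∧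
      n ≡ a [MOD q] ∧ (X ^ 2 + Y ^ 2) ∣ n ^ 2 + 1 ∧
      ((X ^ 2 + Y ^ 2 : ℕ) : ℤ) ∣ (X : ℤ) + n * Y := by
  obtain ⟨w, u, hb⟩ := Nat.isCoprime_iff_coprime.2 hXY
  set d := X ^ 2 + Y ^ 2 with hdd
  have hd2 : 2 ≤ d := by nlinarith
  set ν : ℤ := -X * u + Y * w with hν
  have h1 : ν ^ 2 + 1 = (d : ℤ) * (u ^ 2 + w ^ 2) := by
    rw [hν, hdd]
    push_cast
    linear_combination (-(w * X + u * Y) - 1) * hb
  have h2 : (X : ℤ) + ν * Y = (d : ℤ) * w := by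
    rw [hν, hdd]
    push_cast
    linear_combination (-(X : ℤ)) * hb
  have hdpos : (0 : ℤ) < d := by exact_mod_cast (by omega : 0 < d)
  obtain ⟨ν', hν'⟩ : ∃ ν' : ℕ, (ν' : ℤ) = ν % d :=
    ⟨(ν % d).toNat, Int.toNat_of_nonneg (Int.emod_nonneg _ hdpos.ne')⟩
  have hlt := Nat.chineseRemainder_lt_mul hd ν' a (by omega) (by omega)
  set n : ℕ := (Nat.chineseRemainder hd ν' a : ℕ) with hn
  have hn1 : n ≡ ν' [MOD d] := (Nat.chineseRemainder hd ν' a).2.1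
  have hn2 : n ≡ a [MOD q] := (Nat.chineseRemainder hd ν' a).2.2
  have h3 : (d : ℤ) ∣ (n : ℤ) - ν := by
    have h4 : (d : ℤ) ∣ (n : ℤ) - ν' := Nat.modEq_iff_dvd.1 hn1.symm
    have h5 : (d : ℤ) ∣ (ν' : ℤ) - ν := by
      rw [hν']
      have := Int.emod_add_mul_ediv ν d
      exact ⟨-(ν / d), by linarith⟩
    have e : (n : ℤ) - ν = (n - ν') + (ν' - ν) := by ring
    rw [e]
    exact h4.add h5
  have h6 : d ∣ n ^ 2 + 1 := by
    have h7 : (d : ℤ) ∣ (n : ℤ) ^ 2 + 1 := by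
      have e : (n : ℤ) ^ 2 + 1 = (n - ν) * (n + ν) + (ν ^ 2 + 1) := by ring
      rw [e, h1]
      exact (h3.mul_right _).add (dvd_mul_right _ _)
    exact_mod_cast h7
  refine ⟨n, ?_, hlt.le, hn2, h6, ?_⟩
  · by_contra h
    have h8 : n = 0 := by omega
    rw [h8] at h6
    have := Nat.le_of_dvd (by norm_num) h6
    norm_num at this
    omega
  · have e : (X : ℤ) + n * Y = (X + ν * Y) + (n - ν) * Y := by ring
    rw [e, h2]
    exact (dvd_mul_right _ _).add (h3.mul_right _)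

/-- the pair is determined by the norm and the root -/
lemma inj (X Y X' Y' : ℕ) (n : ℤ) (hX : 1 ≤ X) (hY : 1 ≤ Y) (hX' : 1 ≤ X') (hY' : 1 ≤ Y')
    (hXY : Nat.Coprime X Y) (hXY' : Nat.Coprime X' Y') (hd : X ^ 2 + Y ^ 2 = X' ^ 2 + Y' ^ 2)
    (h1 : ((X ^ 2 + Y ^ 2 : ℕ) : ℤ) ∣ (X : ℤ) + n * Y)
    (h2 : ((X' ^ 2 + Y' ^ 2 : ℕ) : ℤ) ∣ (X' : ℤ) + n * Y') : X = X' ∧ Y = Y' := by
  rw [← hd] at h2
  have h3 : ((X ^ 2 + Y ^ 2 : ℕ) : ℤ) ∣ (X : ℤ) * Y' - X' * Y := by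
    have e : (X : ℤ) * Y' - X' * Y = (X + n * Y) * Y' - (X' + n * Y') * Y := by ring
    rw [e]
    exact (h1.mul_right _).sub (h2.mul_right _)
  have hdZ : (X : ℤ) ^ 2 + Y ^ 2 = X' ^ 2 + Y' ^ 2 := by exact_mod_cast hd
  have hXz : (1 : ℤ) ≤ X := by exact_mod_cast hX
  have hYz : (1 : ℤ) ≤ Y := by exact_mod_cast hY
  have hXz' : (1 : ℤ) ≤ X' := by exact_mod_cast hX'
  have hYz' : (1 : ℤ) ≤ Y' := by exact_mod_cast hY'
  have h4 : (X : ℤ) * Y' = X' * Y := by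
    obtain ⟨k, hk⟩ := h3
    push_cast at hk
    have hlt1 : (X : ℤ) * Y' < X ^ 2 + Y ^ 2 := by nlinarith [sq_nonneg ((X : ℤ) - Y')]
    have hlt2 : (X' : ℤ) * Y < X ^ 2 + Y ^ 2 := by nlinarith [sq_nonneg ((X' : ℤ) - Y)]
    have hp1 : (0 : ℤ) < X * Y' := by positivity
    have hp2 : (0 : ℤ) < X' * Y := by positivity
    have hk0 : k = 0 := by
      by_contra hne
      rcases lt_or_gt_of_ne hne with h | h
      · have : k ≤ -1 := by omega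
        nlinarith
      · have : 1 ≤ k := by omega
        nlinarith
    rw [hk0, mul_zero] at hk
    linarith
  have h4' : X * Y' = X' * Y := by exact_mod_cast h4
  have h5 : X ∣ X' := hXY.dvd_of_dvd_mul_right (Dvd.intro _ h4')
  have h6 : X' ∣ X := hXY'.dvd_of_dvd_mul_right (Dvd.intro _ h4'.symm)
  have h7 : X = X' := Nat.dvd_antisymm h5 h6
  refine ⟨h7, ?_⟩
  rw [h7] at h4'
  exact (Nat.eq_of_mul_eq_mul_left (by omega) h4').symm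

/-- the block of pairs -/
def B (Q j : ℕ) : Finset (ℕ × ℕ) := ((Ioc (2 ^ j) (2 ^ (j + 1))) ×ˢ (Ioc (2 ^ j) (2 ^ (j + 1)))).filter
  (fun p => Nat.Coprime (1 + Q * p.1) (Q * p.2))

lemma pow_lin (j : ℕ) (hj : 6 ≤ j) : 4 * j + 16 ≤ 2 ^ j := by
  induction j, hj using Nat.le_induction with
  | base => norm_num
  | succ j hj ih => rw [pow_succ]; omega

lemma card_B (Q j : ℕ) (hQ : 2 ∣ Q) (hj : 6 ≤ j) : (4 : ℝ) ^ j / 2 ≤ ((B Q j).card : ℝ) := by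
  have h1 := Pool.Agent.W56.FP.A0Q.card_NP Q (2 ^ j) (2 ^ (j + 1)) hQ
    (pow_le_pow_right₀ (by norm_num) (by omega))
  have h2 := card_filter_add_card_filter_not
    (s := (Ioc (2 ^ j) (2 ^ (j + 1))) ×ˢ (Ioc (2 ^ j) (2 ^ (j + 1))))
    (fun p : ℕ × ℕ => Nat.Coprime (1 + Q * p.1) (Q * p.2))
  have e1 : 2 ^ (j + 1) - 2 ^ j = 2 ^ j := by
    rw [pow_succ]; omega
  rw [card_product, Nat.card_Ioc, e1] at h2
  have h2' : ((B Q j).card : ℝ) + ((((Ioc (2 ^ j) (2 ^ (j + 1))) ×ˢ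
      (Ioc (2 ^ j) (2 ^ (j + 1)))).filter
        (fun p : ℕ × ℕ => ¬ Nat.Coprime (1 + Q * p.1) (Q * p.2))).card : ℝ) =
      (2 : ℝ) ^ j * 2 ^ j := by
    unfold B
    exact_mod_cast h2
  have e2 : (2 : ℝ) ^ j * 2 ^ j = 4 ^ j := by
    rw [← mul_pow]; norm_num
  have e3 : (((2 ^ (j + 1) : ℕ) : ℝ) - ((2 ^ j : ℕ) : ℝ)) = 2 ^ j := by
    push_cast
    rw [pow_succ]; ring
  rw [e3] at h1
  have e4 : Real.log ((2 ^ (j + 1) : ℕ) : ℝ) ≤ j + 1 := by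
    push_cast
    rw [Real.log_pow]
    have := Real.log_two_lt_d9
    push_cast
    nlinarith [(Nat.cast_nonneg j : (0 : ℝ) ≤ j)]
  have e5 : ((2 ^ (j + 1) : ℕ) : ℝ) = 2 * 2 ^ j := by
    push_cast
    rw [pow_succ]; ring
  have e6 : (4 : ℝ) * j + 16 ≤ 2 ^ j := by exact_mod_cast pow_lin j hj
  have hp : (0 : ℝ) < 2 ^ j := by positivity
  have e7 : (2 : ℝ) ^ j * (1 + Real.log ((2 ^ (j + 1) : ℕ) : ℝ)) ≤ 2 ^ j * (j + 2) := by
    apply mul_le_mul_of_nonneg_left _ hp.le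
    linarith
  rw [e2] at h2'
  have e8 : ((2 : ℝ) ^ j) ^ 2 = 4 ^ j := by rw [pow_two, e2]
  rw [e8, e5] at h1
  rw [e5] at e7
  have e9 : (2 : ℝ) ^ j * (j + 4) ≤ 4 ^ j / 4 := by
    rw [← e2]
    nlinarith
  nlinarith

/-- SLOWQ: lower bound for the weights in a residue class -/
theorem slowq : S_SLOWQ := by
  classical
  intro q a hq
  set Q := 2 * q with hQ
  have hQ1 : 1 ≤ Q := by omega
  set K := 32 * Q ^ 2 with hK
  have hK1 : 1 ≤ K := by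
    have : 1 ≤ Q ^ 2 := Nat.one_le_pow _ _ hQ1
    omega
  have hqK : 0 < q * K := Nat.mul_pos hq hK1
  have hqR : (1 : ℝ) ≤ q := by exact_mod_cast hq
  have hKR : (1 : ℝ) ≤ K := by exact_mod_cast hK1
  have hl4 : 0 < Real.log 4 := Real.log_pos (by norm_num)
  refine ⟨1 / (8 * q ^ 2 * K * Real.log 4), by positivity, ?_⟩
  obtain ⟨N₀, hN₀⟩ := exists_nat_ge (Real.exp (12 * Real.log 4 + 2 * Real.log (q * K : ℕ)))
  refine ⟨N₀ + 1, ?_⟩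
  intro N hN
  have hNR : Real.exp (12 * Real.log 4 + 2 * Real.log (q * K : ℕ)) ≤ N :=
    hN₀.trans (by exact_mod_cast (by omega : N₀ ≤ N))
  have hNpos : (0 : ℝ) < N := (Real.exp_pos _).trans_le hNR
  have hlogN : 12 * Real.log 4 + 2 * Real.log (q * K : ℕ) ≤ Real.log N := by
    have := Real.log_le_log (Real.exp_pos _) hNR
    rwa [Real.log_exp] at this
  set J := Nat.log 4 (N / (q * K)) with hJ
  -- the number of blocks
  have hJlow : Real.log N ≤ Real.log (q * K : ℕ) + (J + 1) * Real.log 4 := by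
    have h1 : N / (q * K) < 4 ^ (J + 1) := Nat.lt_pow_succ_log_self (by norm_num) _
    have h2 : N < 4 ^ (J + 1) * (q * K) := (Nat.div_lt_iff_lt_mul hqK).1 h1
    have h3 : (N : ℝ) ≤ (4 : ℝ) ^ (J + 1) * ((q * K : ℕ) : ℝ) := by exact_mod_cast h2.le
    have h4 := Real.log_le_log hNpos h3
    rw [Real.log_mul (by positivity) (by exact_mod_cast hqK.ne'), Real.log_pow] at h4
    push_cast at h4 ⊢
    linarith
  -- the pairs
  set U := (Icc 6 J).biUnion (B Q) with hU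
  have hUm : ∀ p ∈ U, ∃ j, 6 ≤ j ∧ j ≤ J ∧ 2 ^ j < p.1 ∧ p.1 ≤ 2 ^ (j + 1) ∧ 2 ^ j < p.2 ∧
      p.2 ≤ 2 ^ (j + 1) ∧ Nat.Coprime (1 + Q * p.1) (Q * p.2) := by
    intro p hp
    rw [hU, mem_biUnion] at hp
    obtain ⟨j, hj, hp⟩ := hp
    unfold B at hp
    rw [mem_filter, mem_product, mem_Ioc, mem_Ioc] at hp
    rw [mem_Icc] at hj
    exact ⟨j, hj.1, hj.2, hp.1.1.1, hp.1.1.2, hp.1.2.1, hp.1.2.2, hp.2⟩
  have hnorm : ∀ (j : ℕ) (p : ℕ × ℕ), 1 ≤ p.1 → p.1 ≤ 2 ^ (j + 1) → p.2 ≤ 2 ^ (j + 1) →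
      (1 + Q * p.1) ^ 2 + (Q * p.2) ^ 2 ≤ K * 4 ^ j := by
    intro j p h0 h1 h2
    have h3 : 1 + Q * p.1 ≤ 2 * (Q * 2 ^ (j + 1)) := by
      have h5 : Q * p.1 ≤ Q * 2 ^ (j + 1) := Nat.mul_le_mul_left _ h1
      have h6 : 1 * 1 ≤ Q * p.1 := Nat.mul_le_mul hQ1 h0
      omega
    have h4 : Q * p.2 ≤ 2 * (Q * 2 ^ (j + 1)) := by
      have := Nat.mul_le_mul_left Q h2
      omega
    calc (1 + Q * p.1) ^ 2 + (Q * p.2) ^ 2 ≤ (2 * (Q * 2 ^ (j + 1))) ^ 2 +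
          (2 * (Q * 2 ^ (j + 1))) ^ 2 := Nat.add_le_add (Nat.pow_le_pow_left h3 2)
            (Nat.pow_le_pow_left h4 2)
      _ = K * 4 ^ j := by
          rw [hK, show (4 : ℕ) = 2 ^ 2 by norm_num, ← pow_mul]
          ring
  have hcop : ∀ p : ℕ × ℕ, Nat.Coprime ((1 + Q * p.1) ^ 2 + (Q * p.2) ^ 2) q := by
    intro p
    have e : (1 + Q * p.1) ^ 2 + (Q * p.2) ^ 2 =
        1 + q * (4 * p.1 + 4 * q * p.1 ^ 2 + 4 * q * p.2 ^ 2) := by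
      rw [hQ]; ring
    rw [e]
    exact (Nat.coprime_add_mul_left_left 1 q _).2 (Nat.coprime_one_left q)
  have hroot : ∀ p : ℕ × ℕ, ∃ n : ℕ, p ∈ U → 1 ≤ n ∧ n ≤ ((1 + Q * p.1) ^ 2 + (Q * p.2) ^ 2) * q ∧
      n ≡ a [MOD q] ∧ ((1 + Q * p.1) ^ 2 + (Q * p.2) ^ 2) ∣ n ^ 2 + 1 ∧
      (((1 + Q * p.1) ^ 2 + (Q * p.2) ^ 2 : ℕ) : ℤ) ∣ ((1 + Q * p.1 : ℕ) : ℤ) + n * (Q * p.2 : ℕ) := by
    intro p
    by_cases hp : p ∈ U
    · obtain ⟨j, h1, h2, h3, h4, h5, h6, h7⟩ := hUm p hp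
      obtain ⟨n, hn⟩ := root q a (1 + Q * p.1) (Q * p.2) hq (by omega)
        (Nat.mul_pos hQ1 (by omega)) h7 (hcop p)
      exact ⟨n, fun _ => hn⟩
    · exact ⟨0, fun h => absurd h hp⟩
  choose ν hν using hroot
  set φ : ℕ × ℕ → (Σ _ : ℕ, ℕ) := fun p => ⟨ν p, (1 + Q * p.1) ^ 2 + (Q * p.2) ^ 2⟩ with hφ
  set S := ((Icc 1 N).filter (fun n => n ≡ a [MOD q])).sigma
    (fun n => Nat.divisors (n ^ 2 + 1)) with hS
  have hφS : ∀ p ∈ U, φ p ∈ S := by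
    intro p hp
    obtain ⟨j, h1, h2, h3, h4, h5, h6, h7⟩ := hUm p hp
    obtain ⟨g1, g2, g3, g4, g5⟩ := hν p hp
    rw [hS, mem_sigma, mem_filter, mem_Icc, Nat.mem_divisors]
    refine ⟨⟨⟨g1, ?_⟩, g3⟩, g4, by positivity⟩
    have h8 := hnorm j p (by omega) h4 h6
    have h9 : 4 ^ j ≤ N / (q * K) := by
      refine (Nat.pow_le_pow_right (by norm_num) h2).trans ?_
      apply Nat.pow_log_le_self
      intro h0
      rw [h0, Nat.log_zero_right] at hJ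
      omega
    calc ν p ≤ ((1 + Q * p.1) ^ 2 + (Q * p.2) ^ 2) * q := g2
      _ ≤ (K * 4 ^ j) * q := Nat.mul_le_mul_right _ h8
      _ = 4 ^ j * (q * K) := by ring
      _ ≤ N := (Nat.le_div_iff_mul_le hqK).1 h9
  have hφinj : Set.InjOn φ (U : Set (ℕ × ℕ)) := by
    intro p hp p' hp' h
    obtain ⟨j, h1, h2, h3, h4, h5, h6, h7⟩ := hUm p hp
    obtain ⟨j', h1', h2', h3', h4', h5', h6', h7'⟩ := hUm p' hp'
    obtain ⟨g1, g2, g3, g4, g5⟩ := hν p hp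
    obtain ⟨g1', g2', g3', g4', g5'⟩ := hν p' hp'
    rw [hφ] at h
    simp only [Sigma.mk.injEq, heq_eq_eq] at h
    obtain ⟨e1, e2⟩ := h
    rw [← e1] at g5'
    obtain ⟨k1, k2⟩ := inj (1 + Q * p.1) (Q * p.2) (1 + Q * p'.1) (Q * p'.2) (ν p) (by omega)
      (Nat.mul_pos hQ1 (by omega)) (by omega) (Nat.mul_pos hQ1 (by omega)) h7 h7' e2 g5 g5'
    have k3 : Q * p.1 = Q * p'.1 := by omega
    exact Prod.ext (Nat.eq_of_mul_eq_mul_left hQ1 k3) (Nat.eq_of_mul_eq_mul_left hQ1 k2)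
  -- the terms
  have hterm : ∀ p ∈ U, 1 / (2 * (q : ℝ) ^ 2 * ((1 + Q * p.1) ^ 2 + (Q * p.2) ^ 2 : ℕ)) ≤
      1 / ((max (φ p).2 (((φ p).1 ^ 2 + 1) / (φ p).2) : ℕ) : ℝ) := by
    intro p hp
    obtain ⟨g1, g2, g3, g4, g5⟩ := hν p hp
    rw [hφ]
    simp only
    set d := (1 + Q * p.1) ^ 2 + (Q * p.2) ^ 2 with hd
    have hd1 : 1 ≤ d := by
      have : 1 ≤ (1 + Q * p.1) ^ 2 := Nat.one_le_pow _ _ (by omega)
      omega
    apply one_div_le_one_div_of_le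
    · have : 1 ≤ max d ((ν p ^ 2 + 1) / d) := hd1.trans (le_max_left _ _)
      exact_mod_cast this
    · have h1 : max d ((ν p ^ 2 + 1) / d) ≤ 2 * q ^ 2 * d := by
        have hq2 : 1 ≤ q ^ 2 := Nat.one_le_pow _ _ hq
        apply max_le
        · nlinarith
        · apply Nat.div_le_of_le_mul
          have h2 : ν p ^ 2 ≤ (d * q) ^ 2 := Nat.pow_le_pow_left g2 2
          have h3 : 1 ≤ (d * q) ^ 2 := Nat.one_le_pow _ _ (Nat.mul_pos hd1 hq)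
          calc ν p ^ 2 + 1 ≤ (d * q) ^ 2 + (d * q) ^ 2 := Nat.add_le_add h2 h3
            _ = d * (2 * q ^ 2 * d) := by ring
      exact_mod_cast h1
  -- the sum
  have hsum : ∑ p ∈ U, 1 / (2 * (q : ℝ) ^ 2 * ((1 + Q * p.1) ^ 2 + (Q * p.2) ^ 2 : ℕ)) ≤
      ∑ n ∈ (Icc 1 N).filter (fun n => n ≡ a [MOD q]), wn n := by
    unfold wn
    rw [sum_sigma']
    calc _ ≤ ∑ p ∈ U, 1 / ((max (φ p).2 (((φ p).1 ^ 2 + 1) / (φ p).2) : ℕ) : ℝ) :=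
          sum_le_sum hterm
      _ = ∑ z ∈ U.image φ, 1 / ((max z.2 ((z.1 ^ 2 + 1) / z.2) : ℕ) : ℝ) :=
          (sum_image (f := fun z : (Σ _ : ℕ, ℕ) => 1 / ((max z.2 ((z.1 ^ 2 + 1) / z.2) : ℕ) : ℝ))
            hφinj).symm
      _ ≤ _ := by
          apply sum_le_sum_of_subset_of_nonneg
          · intro z hz
            rw [mem_image] at hz
            obtain ⟨p, hp, rfl⟩ := hz
            exact hφS p hp
          · intro z _ _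
            positivity
  refine le_trans ?_ hsum
  -- the blocks
  have hdisj : Set.PairwiseDisjoint ((Icc 6 J : Finset ℕ) : Set ℕ) (B Q) := by
    intro i _ j _ hij
    rw [Function.onFun, disjoint_left]
    intro p hp hp'
    unfold B at hp hp'
    rw [mem_filter, mem_product, mem_Ioc, mem_Ioc] at hp hp'
    obtain ⟨⟨⟨h1, h2⟩, -⟩, -⟩ := hp
    obtain ⟨⟨⟨h1', h2'⟩, -⟩, -⟩ := hp'
    apply hij
    have h3 : 2 ^ i < 2 ^ (j + 1) := h1.trans_le h2'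
    have h4 : 2 ^ j < 2 ^ (i + 1) := h1'.trans_le h2
    have h5 := (Nat.pow_lt_pow_iff_right (by norm_num : 1 < 2)).1 h3
    have h6 := (Nat.pow_lt_pow_iff_right (by norm_num : 1 < 2)).1 h4
    omega
  rw [hU, sum_biUnion hdisj]
  have hblock : ∀ j ∈ Icc 6 J, 1 / (4 * (q : ℝ) ^ 2 * K) ≤
      ∑ p ∈ B Q j, 1 / (2 * (q : ℝ) ^ 2 * ((1 + Q * p.1) ^ 2 + (Q * p.2) ^ 2 : ℕ)) := by
    intro j hj
    rw [mem_Icc] at hj
    have h1 : ∀ p ∈ B Q j, 1 / (2 * (q : ℝ) ^ 2 * (K * 4 ^ j)) ≤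
        1 / (2 * (q : ℝ) ^ 2 * ((1 + Q * p.1) ^ 2 + (Q * p.2) ^ 2 : ℕ)) := by
      intro p hp
      unfold B at hp
      rw [mem_filter, mem_product, mem_Ioc, mem_Ioc] at hp
      have h2 := hnorm j p (by omega) hp.1.1.2 hp.1.2.2
      have h3 : (((1 + Q * p.1) ^ 2 + (Q * p.2) ^ 2 : ℕ) : ℝ) ≤ K * 4 ^ j := by exact_mod_cast h2
      apply one_div_le_one_div_of_le
      · have h4 : 1 ≤ (1 + Q * p.1) ^ 2 + (Q * p.2) ^ 2 := by
          have : 1 ≤ (1 + Q * p.1) ^ 2 := Nat.one_le_pow _ _ (by omega)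
          omega
        have h5 : (1 : ℝ) ≤ (((1 + Q * p.1) ^ 2 + (Q * p.2) ^ 2 : ℕ) : ℝ) := by exact_mod_cast h4
        positivity
      · exact mul_le_mul_of_nonneg_left h3 (by positivity)
    have h2 := sum_le_sum h1
    rw [sum_const, nsmul_eq_mul] at h2
    refine le_trans ?_ h2
    have h3 := card_B Q j ⟨q, rfl⟩ hj.1
    calc 1 / (4 * (q : ℝ) ^ 2 * K) = (4 : ℝ) ^ j / 2 * (1 / (2 * (q : ℝ) ^ 2 * (K * 4 ^ j))) := by
          field_simp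
          ring
      _ ≤ _ := mul_le_mul_of_nonneg_right h3 (by positivity)
  have hfin := sum_le_sum hblock
  rw [sum_const, nsmul_eq_mul, Nat.card_Icc] at hfin
  refine le_trans ?_ hfin
  have h5 : (J : ℝ) - 5 ≤ ((J + 1 - 6 : ℕ) : ℝ) := by
    have : J ≤ (J + 1 - 6) + 5 := by omega
    have h6 : (J : ℝ) ≤ ((J + 1 - 6 : ℕ) : ℝ) + 5 := by exact_mod_cast this
    linarith
  have h6 : Real.log N / (2 * Real.log 4) ≤ (J : ℝ) - 5 := by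
    rw [div_le_iff₀ (by positivity)]
    nlinarith
  calc 1 / (8 * (q : ℝ) ^ 2 * K * Real.log 4) * Real.log N =
        Real.log N / (2 * Real.log 4) * (1 / (4 * (q : ℝ) ^ 2 * K)) := by
        field_simp
        ring
    _ ≤ ((J + 1 - 6 : ℕ) : ℝ) * (1 / (4 * (q : ℝ) ^ 2 * K)) :=
        mul_le_mul_of_nonneg_right (h6.trans h5) (by positivity)

end Pool.Agent.W125.EX
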